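import Pool.Agent.Q120.TD.Opp
import Pool.Agent.Q120.MF.Exists

/-!
# The number of elements of Oppermann's intervals, in Cramér's model

In Cramér's random model of the primes the numbers `A(n)` and `B(n)` of elements of `[n^2 - n, n^2]` and
`[n^2, n^2 + n]` satisfy, almost surely, `limsup (A(n) - n / (2 log n)) / sqrt n = 1` and `liminf = -1`, and the same
for `B(n)`. This is a case of a law for every family of pairwise disjoint finite sets `W i`.
-/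

set_option autoImplicit false

namespace Pool.Agent.Results.MP_a8fbd7_nt.DeviationLaw

open MeasureTheory Filter Pool.Agent.Q120.MF Pool.Agent.Q120.AD

theorem ncard_eq {Ω : Type*} [MeasurableSpace Ω] (A : Ω → Set ℕ) (W : Finset ℕ) (ω : Ω) :
    (A ω ∩ (W : Set ℕ)).ncard = (Pool.Agent.Q120.ET.tr A W ω).card := by
  rw [← Set.ncard_coe_finset]
  congr 1
  ext n
  rw [Finset.mem_coe, Pool.Agent.Q120.ET.mem_tr]
  exact and_comm

theorem result :
    (∃ (Ω : Type) (_ : MeasurableSpace Ω) (μ : Measure Ω) (A : Ω → Set ℕ), IsProbabilityMeasure μ ∧ IsCramer μ A) ∧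
    ∀ (Ω : Type) [MeasurableSpace Ω] (μ : Measure Ω) [IsProbabilityMeasure μ] (A : Ω → Set ℕ), IsCramer μ A →
      -- the intervals of Oppermann
      (∀ᵐ ω ∂μ, ∀ ε : ℝ, 0 < ε →
        (∀ᶠ n : ℕ in atTop,
          |((A ω ∩ Set.Icc (n ^ 2 - n) (n ^ 2)).ncard : ℝ) - n / (2 * Real.log n)| ≤ (1 + ε) * √n) ∧
        (∃ᶠ n : ℕ in atTop,
          n / (2 * Real.log n) + (1 - ε) * √n ≤ ((A ω ∩ Set.Icc (n ^ 2 - n) (n ^ 2)).ncard : ℝ)) ∧
        (∃ᶠ n : ℕ in atTop,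
          ((A ω ∩ Set.Icc (n ^ 2 - n) (n ^ 2)).ncard : ℝ) ≤ n / (2 * Real.log n) - (1 - ε) * √n) ∧
        (∀ᶠ n : ℕ in atTop,
          |((A ω ∩ Set.Icc (n ^ 2) (n ^ 2 + n)).ncard : ℝ) - n / (2 * Real.log n)| ≤ (1 + ε) * √n) ∧
        (∃ᶠ n : ℕ in atTop,
          n / (2 * Real.log n) + (1 - ε) * √n ≤ ((A ω ∩ Set.Icc (n ^ 2) (n ^ 2 + n)).ncard : ℝ)) ∧
        (∃ᶠ n : ℕ in atTop,
          ((A ω ∩ Set.Icc (n ^ 2) (n ^ 2 + n)).ncard : ℝ) ≤ n / (2 * Real.log n) - (1 - ε) * √n)) ∧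
      -- every family of pairwise disjoint finite sets
      (∀ W : ℕ → Finset ℕ, (∀ i, ∀ n ∈ W i, 3 ≤ n) → (∀ i j, i ≠ j → Disjoint (W i) (W j)) →
        Tendsto (fun i : ℕ => (∑ n ∈ W i, 1 / Real.log (n : ℝ)) / Real.log i) atTop atTop →
        ∀ᵐ ω ∂μ, ∀ ε : ℝ, 0 < ε →
          (∀ᶠ i : ℕ in atTop, |((A ω ∩ (W i : Set ℕ)).ncard : ℝ) - ∑ n ∈ W i, 1 / Real.log (n : ℝ)| ≤
            (1 + ε) * √(2 * (∑ n ∈ W i, 1 / Real.log (n : ℝ)) * Real.log i)) ∧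
          (∃ᶠ i : ℕ in atTop, (∑ n ∈ W i, 1 / Real.log (n : ℝ)) +
            (1 - ε) * √(2 * (∑ n ∈ W i, 1 / Real.log (n : ℝ)) * Real.log i) ≤ ((A ω ∩ (W i : Set ℕ)).ncard : ℝ)) ∧
          (∃ᶠ i : ℕ in atTop, ((A ω ∩ (W i : Set ℕ)).ncard : ℝ) ≤ (∑ n ∈ W i, 1 / Real.log (n : ℝ)) -
            (1 - ε) * √(2 * (∑ n ∈ W i, 1 / Real.log (n : ℝ)) * Real.log i))) := by
  refine ⟨⟨_, _, cramerMeasure, cramerSet, inferInstance, isCramer⟩, ?_⟩
  intro Ω _ μ _ A hA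
  have hj0 : ∀ j : ℕ, (0 : ℝ) < 1 / ((j : ℝ) + 1) := fun j => by positivity
  have hj1 : ∀ j : ℕ, 1 / ((j : ℝ) + 1) ≤ 1 := fun j => by
    rw [div_le_one (by positivity)]
    linarith [Nat.cast_nonneg (α := ℝ) j]
  have hjε : ∀ ε : ℝ, 0 < ε → ∃ j : ℕ, 1 / ((j : ℝ) + 1) ≤ ε := by
    intro ε hε
    obtain ⟨j, hj⟩ := exists_nat_gt (1 / ε)
    refine ⟨j, ?_⟩
    rw [div_le_iff₀ (by positivity)]
    rw [div_lt_iff₀ hε] at hj
    nlinarith
  constructor
  · have hsq : ∀ i : ℕ, i ≤ i ^ 2 := fun i => Nat.le_self_pow (by norm_num) i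
    have hA1 := fun j : ℕ => Pool.Agent.Q120.TD.opp_law hA (lo := fun i => i ^ 2 - i) (fun i => le_refl _)
      (fun i => Nat.sub_le _ _) (by
        intro i j' hi hij
        show i ^ 2 - i + i < j' ^ 2 - j'
        have h1 := hsq i
        have h2 : (i + 1) ^ 2 + (j' - (i + 1)) ≤ j' ^ 2 := by
          obtain ⟨k, rfl⟩ : ∃ k, j' = (i + 1) + k := ⟨j' - (i + 1), by omega⟩
          have e1 : (i + 1 + k) ^ 2 = (i + 1) ^ 2 + 2 * (i + 1) * k + k ^ 2 := by ring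
          rw [e1]
          have e2 : k ≤ 2 * (i + 1) * k := Nat.le_mul_of_pos_left _ (by omega)
          omega
        have h3 : (i + 1) ^ 2 = i ^ 2 + 2 * i + 1 := by ring
        omega) (hj0 j) (hj1 j)
    have hB1 := fun j : ℕ => Pool.Agent.Q120.TD.opp_law hA (lo := fun i => i ^ 2) (fun i => Nat.sub_le _ _)
      (fun i => le_refl _) (by
        intro i j' hi hij
        show i ^ 2 + i < j' ^ 2
        have h2 : (i + 1) ^ 2 ≤ j' ^ 2 := Nat.pow_le_pow_left (by omega) 2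
        have h3 : (i + 1) ^ 2 = i ^ 2 + 2 * i + 1 := by ring
        omega) (hj0 j) (hj1 j)
    have eA : ∀ (n : ℕ) (ω : Ω), 3 ≤ n → (A ω ∩ Set.Icc (n ^ 2 - n) (n ^ 2)).ncard =
        (Pool.Agent.Q120.ET.tr A (Pool.Agent.Q120.TD.opp (fun i => i ^ 2 - i) n) ω).card := by
      intro n ω hn
      rw [← ncard_eq]
      unfold Pool.Agent.Q120.TD.opp
      rw [if_pos hn, Finset.coe_Icc, Nat.sub_add_cancel (hsq n)]
    have eB : ∀ (n : ℕ) (ω : Ω), 3 ≤ n → (A ω ∩ Set.Icc (n ^ 2) (n ^ 2 + n)).ncard =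
        (Pool.Agent.Q120.ET.tr A (Pool.Agent.Q120.TD.opp (fun i => i ^ 2) n) ω).card := by
      intro n ω hn
      rw [← ncard_eq]
      unfold Pool.Agent.Q120.TD.opp
      rw [if_pos hn, Finset.coe_Icc]
    filter_upwards [ae_all_iff.2 hA1, ae_all_iff.2 hB1] with ω h1 h2
    intro ε hε
    obtain ⟨j, hj⟩ := hjε ε hε
    obtain ⟨a1, a2, a3⟩ := h1 j
    obtain ⟨b1, b2, b3⟩ := h2 j
    have hs : ∀ n : ℕ, 0 ≤ √(n : ℝ) := fun n => Real.sqrt_nonneg _
    refine ⟨?_, ?_, ?_, ?_, ?_, ?_⟩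
    · filter_upwards [a1, eventually_ge_atTop 3] with n hn hn3
      rw [eA n ω hn3]
      exact hn.trans (mul_le_mul_of_nonneg_right (by linarith) (hs n))
    · refine (a2.and_eventually (eventually_ge_atTop 3)).mono ?_
      rintro n ⟨hn, hn3⟩
      rw [eA n ω hn3]
      have := mul_le_mul_of_nonneg_right (show 1 - ε ≤ 1 - 1 / ((j : ℝ) + 1) by linarith) (hs n)
      linarith
    · refine (a3.and_eventually (eventually_ge_atTop 3)).mono ?_
      rintro n ⟨hn, hn3⟩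
      rw [eA n ω hn3]
      have := mul_le_mul_of_nonneg_right (show 1 - ε ≤ 1 - 1 / ((j : ℝ) + 1) by linarith) (hs n)
      linarith
    · filter_upwards [b1, eventually_ge_atTop 3] with n hn hn3
      rw [eB n ω hn3]
      exact hn.trans (mul_le_mul_of_nonneg_right (by linarith) (hs n))
    · refine (b2.and_eventually (eventually_ge_atTop 3)).mono ?_
      rintro n ⟨hn, hn3⟩
      rw [eB n ω hn3]
      have := mul_le_mul_of_nonneg_right (show 1 - ε ≤ 1 - 1 / ((j : ℝ) + 1) by linarith) (hs n)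
      linarith
    · refine (b3.and_eventually (eventually_ge_atTop 3)).mono ?_
      rintro n ⟨hn, hn3⟩
      rw [eB n ω hn3]
      have := mul_le_mul_of_nonneg_right (show 1 - ε ≤ 1 - 1 / ((j : ℝ) + 1) by linarith) (hs n)
      linarith
  · intro W hW hd hμ
    have h1 := fun j : ℕ => Pool.Agent.Q120.TD.deviations_le hA hW hμ (hj0 j) (hj1 j)
    have h2 := fun j : ℕ => Pool.Agent.Q120.TD.often_up hA hW hd hμ (hj0 j) (hj1 j)
    have h3 := fun j : ℕ => Pool.Agent.Q120.TD.often_down hA hW hd hμ (hj0 j) (hj1 j)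
    filter_upwards [ae_all_iff.2 h1, ae_all_iff.2 h2, ae_all_iff.2 h3] with ω h1 h2 h3
    intro ε hε
    obtain ⟨j, hj⟩ := hjε ε hε
    have hs : ∀ i : ℕ, 0 ≤ Pool.Agent.Q120.TD.sc W i := fun i => Real.sqrt_nonneg _
    refine ⟨?_, ?_, ?_⟩
    · filter_upwards [h1 j] with i hi
      rw [ncard_eq]
      exact hi.trans (mul_le_mul_of_nonneg_right (by linarith) (hs i))
    · refine (h2 j).mono (fun i hi => ?_)
      rw [ncard_eq]
      have e1 := mul_le_mul_of_nonneg_right (show 1 - ε ≤ 1 - 1 / ((j : ℝ) + 1) by linarith) (hs i)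
      exact le_trans (add_le_add (le_refl _) e1) hi
    · refine (h3 j).mono (fun i hi => ?_)
      rw [ncard_eq]
      have e1 := mul_le_mul_of_nonneg_right (show 1 - ε ≤ 1 - 1 / ((j : ℝ) + 1) by linarith) (hs i)
      exact le_trans hi (sub_le_sub (le_refl _) e1)

end Pool.Agent.Results.MP_a8fbd7_nt.DeviationLaw
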