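import Pool.Agent.Q253.Thin.PowSample

/-!
# Prime counts in Oppermann's intervals: an equivalent question for sparse sets

For every function `ω` tending to infinity there are sets of at most `ω(n) log ^ 2 n` elements of Oppermann's intervals, whose primes
decide the question: the asymptotic formulas for `A(n)` and `B(n)` hold if and only if they hold for these sets. The same
sets count faithfully the primes, and the almost primes with any given number of prime factors, of all subintervals and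
all residue classes to moduli up to `n ^ D`.

Libraries (starting files): `Y151.HS.FLC` (fundamental lemma of the sieve).
-/

set_option autoImplicit false

namespace Pool.Agent.Results.MP_a8fbd7_nt.SparseEquivalent

open Finset Filter Topology
open Pool.Agent.Q253.Thin
open Pool.Agent.Y843.HS (Pr VV Pr_mem Pr_prime)
open Pool.Agent.Y843.HG (V1 V1_bounds)

/-- the number of the primes `p` with `n ^ 2 - n ≤ p ≤ n ^ 2` -/
def A (n : ℕ) : ℕ := ((Icc (n ^ 2 - n) (n ^ 2)).filter Nat.Prime).card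

/-- the number of the primes `p` with `n ^ 2 ≤ p ≤ n ^ 2 + n` -/
def B (n : ℕ) : ℕ := ((Icc (n ^ 2) (n ^ 2 + n)).filter Nat.Prime).card

open Classical in
/-- the integers `m` with `s n + i < m ≤ s n + j`, `m ≡ a` modulo `q`, with exactly `r` prime factors (with multiplicity) and
no prime factor `≤ n ^ (1/t)` -/
noncomputable def Cl (t : ℕ) (s : ℕ → ℕ) (n i j q a r : ℕ) : Finset ℕ :=
  (Ioc (s n) (s n + n)).filter (fun m => s n + i < m ∧ m ≤ s n + j ∧ m % q = a ∧ m.primeFactorsList.length = r ∧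
    ∀ p : ℕ, p.Prime → p ∣ m → (n : ℝ) ^ (1 / (t : ℝ)) < p)

/-- the sampled count `|T ∩ W|` is `|T| |W| / n` up to the error `ε |T| / log n` -/
def Faithful (ε : ℝ) (n : ℕ) (T W : Finset ℕ) : Prop :=
  |((T ∩ W).card : ℝ) - T.card * (W.card / n)| ≤ ε * (T.card / Real.log n)

/-- the family of the sets `T n` represents the windows `(s n, s n + n]` -/
def Represents (t D : ℕ) (s : ℕ → ℕ) (T : ℕ → Finset ℕ) : Prop :=
  (∀ n, T n ⊆ Ioc (s n) (s n + n)) ∧
  ∀ ε : ℝ, 0 < ε → ∃ n₀ : ℕ, ∀ n : ℕ, n₀ ≤ n → 0 < (T n).card ∧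
    ∀ i j q a r : ℕ, i ≤ n → j ≤ n → a < q → q ≤ n ^ D → r ≤ n → Faithful ε n (T n) (Cl t s n i j q a r)

lemma sysZ : SysZ 1 (fun _ => ({0} : Finset ℕ)) where
  card _ _ := by simp
  loc p hp := by rw [card_singleton]; exact hp.one_lt
  lt p hp c hc := by rw [mem_singleton] at hc; rw [hc]; exact hp.pos

lemma VV_eq (Y : ℕ) : VV (fun _ => ({0} : Finset ℕ)) 0 Y = V1 Y := by
  unfold VV V1
  apply prod_congr rfl
  intro p _
  rw [card_singleton]
  norm_num

lemma cl_sub (t : ℕ) (s : ℕ → ℕ) (n i j q a r : ℕ) :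
    Cl t s n i j q a r ⊆ IS t n (s n) (s n + n) (fun _ => {0}) := by
  classical
  intro m hm
  unfold Cl at hm
  unfold IS
  rw [mem_filter] at hm ⊢
  obtain ⟨a1, a2, a3, a4, a5, a6⟩ := hm
  refine ⟨a1, fun p hp hpn hmem => ?_⟩
  rw [mem_singleton] at hmem
  have := a6 p hp (Nat.dvd_of_mod_eq_zero hmem)
  linarith

lemma sample (t D : ℕ) (ht : 1 ≤ t) (s : ℕ → ℕ) (ω : ℕ → ℝ) (hω0 : ∀ n, 0 ≤ ω n) (hω : Tendsto ω atTop atTop) :
    ∃ T : ℕ → Finset ℕ, (∀ n, ((T n).card : ℝ) ≤ ω n * Real.log n ^ 2) ∧ Represents t D s T := by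
  classical
  obtain ⟨c, C, hc, hC, hV⟩ := V1_bounds
  set Idx : ℕ → Finset (ℕ × ℕ × ℕ × ℕ × ℕ) := fun n =>
    range (n + 1) ×ˢ range (n + 1) ×ˢ range (n ^ D + 1) ×ˢ range (n ^ D + 1) ×ˢ range (n + 1) with hIdx
  set R : ℕ → ℕ × ℕ × ℕ × ℕ × ℕ → Finset ℕ := fun n x => Cl t s n x.1 x.2.1 x.2.2.1 x.2.2.2.1 x.2.2.2.2 with hR
  have hcardI : ∀ n : ℕ, 2 ≤ n → (Idx n).card ≤ n ^ (2 * D + 8) := by
    intro n hn
    rw [hIdx]
    simp only [card_product, card_range]
    have h1 : n + 1 ≤ n ^ 2 := by nlinarith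
    have h2 : n ^ D + 1 ≤ n ^ (D + 1) := by
      have h3 : 1 ≤ n ^ D := Nat.one_le_pow _ _ (by omega)
      rw [pow_succ]
      nlinarith
    calc (n + 1) * ((n + 1) * ((n ^ D + 1) * ((n ^ D + 1) * (n + 1)))) ≤
          n ^ 2 * (n ^ 2 * (n ^ (D + 1) * (n ^ (D + 1) * n ^ 2))) := by gcongr
      _ = n ^ (2 * D + 8) := by ring
  obtain ⟨T, hT1, hT2, hT3⟩ := diagW (fun n => Ioc (s n) (s n + n)) (fun n => ω n * Real.log n ^ 2) (fun n => by
      have := Real.log_natCast_nonneg n
      have := hω0 n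
      positivity)
    (fun ε n T => 0 < T.card ∧ ∀ x ∈ Idx n,
      |((T ∩ R n x).card : ℝ) - T.card * ((R n x).card / n)| ≤ ε * (T.card * V1 n))
    (by
      intro ε ε' hεε n T hT
      refine ⟨hT.1, fun i hi => (hT.2 i hi).trans ?_⟩
      exact mul_le_mul_of_nonneg_right hεε (mul_nonneg (Nat.cast_nonneg _) (Pool.Agent.Y843.HG.V1_pos n).le)) (by
    intro j
    obtain ⟨K, hK, X₀, hb⟩ := blockZA 1 t le_rfl ht (2 * D + 8) (1 / ((j : ℝ) + 1)) (by positivity)
    have h1 : ∀ᶠ n : ℕ in atTop, 2 * K ≤ ω n := hω.eventually_ge_atTop _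
    have h2 : ∀ᶠ n : ℕ in atTop, K * Real.log n ^ 2 ≤ n := by
      have h3 := (isLittleO_log_rpow_rpow_atTop (s := 1) ((2 : ℕ) : ℝ) (by norm_num)).def
        (show (0 : ℝ) < 1 / K by positivity)
      filter_upwards [(tendsto_natCast_atTop_atTop (R := ℝ)).eventually h3] with n g
      have hl : 0 ≤ Real.log (n : ℝ) := Real.log_natCast_nonneg n
      rw [Real.rpow_natCast, Real.rpow_one, Real.norm_of_nonneg (by positivity), Real.norm_of_nonneg (Nat.cast_nonneg n),
        div_mul_eq_mul_div, one_mul, le_div_iff₀ hK] at g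
      linarith
    filter_upwards [h1, h2, eventually_ge_atTop (max X₀ 2)] with n g1 g2 g3
    have n1 : X₀ ≤ n := (le_max_left _ _).trans g3
    have n2 : 2 ≤ n := (le_max_right _ _).trans g3
    have hl : 0 < Real.log (n : ℝ) := Real.log_pos (by exact_mod_cast (by omega : 1 < n))
    obtain ⟨S, hS1, hS2, hS3, hS4⟩ := hb n n1 (s n) _ (Idx n) (fun _ => fun _ => {0}) (R n) (fun _ _ => sysZ)
      (fun x _ => cl_sub t s n _ _ _ _ _) (hcardI n n2) (K * Real.log n ^ 2) le_rfl g2
    refine ⟨S, hS1, ?_, ?_, ?_⟩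
    · refine hS2.trans ?_
      have := mul_le_mul_of_nonneg_right g1 (show 0 ≤ Real.log (n : ℝ) ^ 2 by positivity)
      linarith
    · have h5 : 0 < K * Real.log (n : ℝ) ^ 2 := by positivity
      have : (0 : ℝ) < S.card := by linarith
      exact_mod_cast this
    · intro x hx
      have := hS4 x hx
      rw [VV_eq] at this
      exact this)
  refine ⟨T, hT2, hT1, ?_⟩
  intro ε hε
  obtain ⟨n₀, hn₀⟩ := hT3 (ε / C) (by positivity)
  refine ⟨max n₀ 2, ?_⟩
  intro n hn
  have n2 : 2 ≤ n := (le_max_right _ _).trans hn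
  obtain ⟨g1, g2⟩ := hn₀ n ((le_max_left _ _).trans hn)
  refine ⟨g1, ?_⟩
  intro i j q a r hi hj ha hq hr
  have h1 := g2 (i, j, q, a, r) (by
    rw [hIdx]
    simp only [mem_product, mem_range]
    omega)
  unfold Faithful
  refine h1.trans ?_
  have h2 := (hV n n2).2
  calc ε / C * ((T n).card * V1 n) ≤ ε / C * ((T n).card * (C / Real.log n)) := by gcongr
    _ = _ := by field_simp

/-- all primes of the window -/
lemma cl_primes (t : ℕ) (ht : 1 ≤ t) (s : ℕ → ℕ) (n : ℕ) (hn : 1 ≤ n) (hs : n ≤ s n) :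
    Cl t s n 0 n 1 0 1 = (Ioc (s n) (s n + n)).filter Nat.Prime := by
  classical
  unfold Cl
  apply filter_congr
  intro m hm
  rw [mem_Ioc] at hm
  constructor
  · rintro ⟨_, _, _, h, _⟩
    obtain ⟨a, ha⟩ := List.length_eq_one_iff.1 h
    have h1 : a.Prime := Nat.prime_of_mem_primeFactorsList (n := m) (by rw [ha]; simp)
    have h2 := Nat.prod_primeFactorsList (show m ≠ 0 by omega)
    rw [ha, List.prod_singleton] at h2
    rwa [← h2]
  · intro h
    refine ⟨by omega, hm.2, Nat.mod_one m, by rw [Nat.primeFactorsList_prime h]; rfl, ?_⟩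
    intro p hp hpm
    rw [(Nat.prime_dvd_prime_iff_eq hp h).1 hpm]
    have h1 : (1 : ℝ) ≤ n := by exact_mod_cast hn
    have h2 : (n : ℝ) ^ (1 / (t : ℝ)) ≤ (n : ℝ) ^ (1 : ℝ) := by
      apply Real.rpow_le_rpow_of_exponent_le h1
      have ht1 : (1 : ℝ) ≤ t := by exact_mod_cast ht
      rw [div_le_one (by linarith)]
      exact ht1
    rw [Real.rpow_one] at h2
    refine lt_of_le_of_lt h2 ?_
    exact_mod_cast (by omega : n < m)

/-- the asymptotic formula for the primes of the windows and for the sparse sets -/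
lemma equivalent {t D : ℕ} (ht : 1 ≤ t) {s : ℕ → ℕ} (hs : ∀ n, 2 ≤ n → n ≤ s n) {T : ℕ → Finset ℕ}
    (hT : Represents t D s T) :
    Tendsto (fun n : ℕ => 2 * (((Ioc (s n) (s n + n)).filter Nat.Prime).card : ℝ) * Real.log n / n) atTop (𝓝 1) ↔
    Tendsto (fun n : ℕ => 2 * (((T n).filter Nat.Prime).card : ℝ) * Real.log n / (T n).card) atTop (𝓝 1) := by
  classical
  obtain ⟨hT1, hT2⟩ := hT
  have hdiff : Tendsto (fun n : ℕ => 2 * (((T n).filter Nat.Prime).card : ℝ) * Real.log n / (T n).card -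
      2 * (((Ioc (s n) (s n + n)).filter Nat.Prime).card : ℝ) * Real.log n / n) atTop (𝓝 0) := by
    rw [Metric.tendsto_atTop]
    intro ε hε
    obtain ⟨n₀, hn₀⟩ := hT2 (ε / 4) (by positivity)
    refine ⟨max n₀ 2, fun n hn => ?_⟩
    have n2 : 2 ≤ n := (le_max_right _ _).trans hn
    obtain ⟨g1, g2⟩ := hn₀ n ((le_max_left _ _).trans hn)
    have h1 := g2 0 n 1 0 1 (by omega) le_rfl (by norm_num) (Nat.one_le_pow _ _ (by omega)) (by omega)
    rw [cl_primes t ht s n (by omega) (hs n n2)] at h1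
    have h3 : T n ∩ (Ioc (s n) (s n + n)).filter Nat.Prime = (T n).filter Nat.Prime := by
      ext m
      rw [mem_inter, mem_filter, mem_filter]
      constructor
      · rintro ⟨a, b, c⟩
        exact ⟨a, c⟩
      · rintro ⟨a, c⟩
        exact ⟨a, hT1 n a, c⟩
    unfold Faithful at h1
    rw [h3] at h1
    have hl : 0 < Real.log (n : ℝ) := Real.log_pos (by exact_mod_cast (by omega : 1 < n))
    have hTc : (0 : ℝ) < (T n).card := by exact_mod_cast g1
    have hn0 : (0 : ℝ) < n := by exact_mod_cast (by omega : 0 < n)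
    rw [Real.dist_eq, sub_zero]
    set x : ℝ := (((T n).filter Nat.Prime).card : ℝ)
    set y : ℝ := (((Ioc (s n) (s n + n)).filter Nat.Prime).card : ℝ)
    set w : ℝ := ((T n).card : ℝ)
    have h4 : 2 * x * Real.log n / w - 2 * y * Real.log n / n = 2 * Real.log n / w * (x - w * (y / n)) := by
      field_simp
    rw [h4, abs_mul, abs_of_pos (by positivity)]
    calc 2 * Real.log n / w * |x - w * (y / n)| ≤ 2 * Real.log n / w * (ε / 4 * (w / Real.log n)) :=
          mul_le_mul_of_nonneg_left h1 (by positivity)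
      _ = ε / 2 := by
          field_simp
          norm_num
      _ < ε := by linarith
  constructor
  · intro h
    have := h.add hdiff
    rw [add_zero] at this
    refine this.congr fun n => ?_
    ring
  · intro h
    have := h.sub hdiff
    rw [sub_zero] at this
    refine this.congr fun n => ?_
    ring

lemma not_prime1 (n : ℕ) (hn : 3 ≤ n) : ¬ (n ^ 2 - n).Prime := by
  have h1 : n ^ 2 - n = n * (n - 1) := by
    rw [pow_two, Nat.mul_sub, Nat.mul_one]
  rw [h1]
  exact Nat.not_prime_mul (by omega) (by omega)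

lemma A_eq (n : ℕ) (hn : 3 ≤ n) : A n = ((Ioc (n ^ 2 - n) (n ^ 2 - n + n)).filter Nat.Prime).card := by
  unfold A
  have hnn : n ≤ n ^ 2 := Nat.le_self_pow (by norm_num) n
  congr 1
  ext p
  rw [mem_filter, mem_filter, mem_Icc, mem_Ioc]
  constructor
  · rintro ⟨⟨a, b⟩, c⟩
    have h1 : p ≠ n ^ 2 - n := by
      rintro rfl
      exact not_prime1 n hn c
    exact ⟨by omega, c⟩
  · rintro ⟨⟨a, b⟩, c⟩
    exact ⟨by omega, c⟩

lemma B_eq (n : ℕ) (_hn : 3 ≤ n) : B n = ((Ioc (n ^ 2) (n ^ 2 + n)).filter Nat.Prime).card := by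
  unfold B
  congr 1
  ext p
  rw [mem_filter, mem_filter, mem_Icc, mem_Ioc]
  constructor
  · rintro ⟨⟨a, b⟩, c⟩
    have h1 : p ≠ n ^ 2 := by
      rintro rfl
      exact Nat.Prime.not_prime_pow (le_refl 2) c
    exact ⟨by omega, c⟩
  · rintro ⟨⟨a, b⟩, c⟩
    exact ⟨by omega, c⟩

/-- **Prime counts in Oppermann's intervals.** Let `t ≥ 1` and `D` be given. For every function `ω ≥ 0` which tends to infinity there
are sets `S n ⊆ (n ^ 2 - n, n ^ 2]` and `T n ⊆ (n ^ 2, n ^ 2 + n]` with at most `ω(n) log ^ 2 n` elements such that (1) for every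
`ε > 0` and all large `n`, for all subintervals `(u, v]` of the window, all residue classes to moduli `q ≤ n ^ D` and all `r ≤ n`,
the number of the elements of the set in the subinterval and in the residue class with exactly `r` prime factors and without
prime factors `≤ n ^ (1/t)` is the corresponding number for the whole window times `|S n| / n`, up to `ε |S n| / log n`; and
(2) the question is equivalent to the same question for the sparse sets: `A(n) ∼ n / (2 log n)` and `B(n) ∼ n / (2 log n)` hold if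
and only if the numbers of the primes of `S n` and of `T n` are asymptotic to `|S n| / (2 log n)` and `|T n| / (2 log n)`. -/
theorem result (t D : ℕ) (ht : 1 ≤ t) (ω : ℕ → ℝ) (hω0 : ∀ n, 0 ≤ ω n) (hω : Tendsto ω atTop atTop) :
    ∃ S T : ℕ → Finset ℕ, (∀ n, ((S n).card : ℝ) ≤ ω n * Real.log n ^ 2) ∧ (∀ n, ((T n).card : ℝ) ≤ ω n * Real.log n ^ 2) ∧
      Represents t D (fun n => n ^ 2 - n) S ∧ Represents t D (fun n => n ^ 2) T ∧
      (Tendsto (fun n : ℕ => 2 * (A n : ℝ) * Real.log n / n) atTop (𝓝 1) ↔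
        Tendsto (fun n : ℕ => 2 * (((S n).filter Nat.Prime).card : ℝ) * Real.log n / (S n).card) atTop (𝓝 1)) ∧
      (Tendsto (fun n : ℕ => 2 * (B n : ℝ) * Real.log n / n) atTop (𝓝 1) ↔
        Tendsto (fun n : ℕ => 2 * (((T n).filter Nat.Prime).card : ℝ) * Real.log n / (T n).card) atTop (𝓝 1)) := by
  classical
  obtain ⟨S, hS1, hS2⟩ := sample t D ht (fun n => n ^ 2 - n) ω hω0 hω
  obtain ⟨T, hT1, hT2⟩ := sample t D ht (fun n => n ^ 2) ω hω0 hω
  refine ⟨S, T, hS1, hT1, hS2, hT2, ?_, ?_⟩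
  · rw [← equivalent ht (fun n hn => ?_) hS2]
    · apply tendsto_congr'
      filter_upwards [eventually_ge_atTop 3] with n hn
      rw [A_eq n hn]
    · have : 2 * n ≤ n ^ 2 := by nlinarith
      show n ≤ n ^ 2 - n
      omega
  · rw [← equivalent ht (fun n hn => ?_) hT2]
    · apply tendsto_congr'
      filter_upwards [eventually_ge_atTop 3] with n hn
      rw [B_eq n hn]
    · exact Nat.le_self_pow (by norm_num) n

end Pool.Agent.Results.MP_a8fbd7_nt.SparseEquivalent
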